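import Pool.Agent.Lib.MP_994fee_co.Gr.Sf

/-!
# Hat guessing on graded graphs: the recursion
-/

set_option autoImplicit false

namespace Pool.Agent.Lib.MP_994fee_co.Gr

open Finset Function Classical

variable {V : Type}

/-- `v` lies below `z`. -/
def In (d : Dat V) (L : V → ℕ) (z v : V) : Prop := d.R z ≤ d.R v ∧ d.R v < d.R z + L z

/-- The facts about the order that the recursion uses. -/
structure Facts (d : Dat V) (lp : V → Option V) (L w idx : V → ℕ) (B w₀ : ℕ) :
    Prop where
  inj : Injective d.R
  wpos : ∀ x, 0 < w x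
  w0pos : 0 < w₀
  Lw : ∀ x, L x = B * w x
  child : ∀ z x, lp z = some x → d.R z = d.R x + idx z * w x ∧ L z = w x
  root : ∀ z, lp z = none → d.R z = idx z * w₀ ∧ L z = w₀
  idx1 : ∀ z, 1 ≤ idx z ∧ idx z < B
  sub : ∀ x v, d.R x < d.R v → d.R v < d.R x + L x → ∃ z, lp z = some x ∧ In d L z v
  top : ∀ v, ∃ z, lp z = none ∧ In d L z v
  lpP : ∀ z x, lp z = some x → x ∈ d.P z
  lpn : ∀ z, lp z = none → d.P z = ∅
  irr : ∀ z, z ∉ d.P z
  hE : ∀ z p, d.E z p ↔ p ∈ d.P z ∧ lp z ≠ some p
  Eu : ∀ z p p', d.E z p → d.E z p' → p = p'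
  Eout : ∀ z p y, d.E z p → lp z = some y → d.R y + L y ≤ d.R p
  pin : ∀ v p, p ∈ d.P v → ¬ In d L v p
  far : ∀ z p x u, d.E z p → lp z = some x → (u = p ∨ u ∈ d.P p ∨ p ∈ d.P u) → In d L x u →
    lp u = some x

variable {d : Dat V} {lp : V → Option V} {L w idx : V → ℕ} {B w₀ : ℕ}

lemma Facts.Lpos (F : Facts d lp L w idx B w₀) (z : V) : 0 < L z := by
  have h1 := F.idx1 z
  have h2 := F.wpos z
  rw [F.Lw z]
  exact Nat.mul_pos (by omega) h2

lemma Facts.In_self (F : Facts d lp L w idx B w₀) (z : V) : In d L z z :=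
  ⟨le_refl _, Nat.lt_add_of_pos_right (F.Lpos z)⟩

/-- The statement proved by recursion. -/
def SS (d : Dat V) (L : V → ℕ) (s : ℕ) (x : V) : Prop :=
  ∀ W : V → ℕ, (∀ v, W v < d.q) → d.Gd (d.R x + L x) W → ∃ β : Finset ℕ, β.card ≤ s ∧
    ∀ c, c < d.q → c ∉ β → ∃ W' : V → ℕ, (∀ v, W' v < d.q) ∧ (∀ v, ¬ In d L x v → W' v = W v) ∧
      W' x = c ∧ d.Gd (d.R x + 1) W' ∧ d.sf x (d.R x) W'

lemma run (F : Facts d lp L w idx B w₀)
    (hg : ∀ v c c', (∀ u, (u ∈ d.P v ∨ v ∈ d.P u) → c u = c' u) → d.g v c = d.g v c')
    {s : ℕ} (hb : (s + 1) * s ≤ d.b) (hbq : d.b < d.q) (o : Option V) (R0 w' : ℕ)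
    (ho : ∀ z, lp z = o → d.R z = R0 + idx z * w' ∧ L z = w')
    (hsub : ∀ v, R0 + w' ≤ d.R v → d.R v < R0 + B * w' → ∃ z, lp z = o ∧ In d L z v)
    (ih : ∀ z, lp z = o → SS d L s z)
    (A : Finset ℕ) (hA : A.card ≤ s + 1) (U0 : ℕ → V → ℕ) (hr : ∀ c ∈ A, ∀ v, U0 c v < d.q)
    (hG : ∀ c ∈ A, d.Gd (R0 + B * w') (U0 c))
    (hz0 : ∀ z, lp z = o → ∀ c ∈ A, ∀ c' ∈ A, U0 c z = U0 c' z)
    (hfix : ∀ z, lp z = o → ∀ p, d.E z p → R0 + B * w' ≤ d.R p ∧
      ∀ u, (u = p ∨ u ∈ d.P p ∨ p ∈ d.P u) → lp u = o ∨
        ((∀ z', lp z' = o → ¬ In d L z' u) ∧ ∀ c ∈ A, ∀ c' ∈ A, U0 c u = U0 c' u)) :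
    ∀ j, j < B → ∃ U : ℕ → V → ℕ, (∀ c ∈ A, ∀ v, U c v < d.q) ∧
      (∀ c ∈ A, d.Gd (R0 + (B - j) * w') (U c)) ∧
      (∀ c ∈ A, ∀ u, (∀ z, lp z = o → ¬ In d L z u) → U c u = U0 c u) ∧
      (∀ z, lp z = o → ∀ c ∈ A, ∀ c' ∈ A, U c z = U c' z) := by
  intro j
  induction j with
  | zero =>
    intro _
    exact ⟨U0, hr, hG, fun _ _ _ _ => rfl, hz0⟩
  | succ j hj =>
    intro hjB
    obtain ⟨U, h1, h2, h3, h4⟩ := hj (by omega)
    obtain ⟨k, hk⟩ : ∃ k, k = B - (j + 1) := ⟨_, rfl⟩
    have hk1 : B - j = k + 1 := by omega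
    have hkB : k + 1 ≤ B := by omega
    rw [hk1] at h2
    rw [← hk]
    have hkw : R0 + (k + 1) * w' ≤ R0 + B * w' := Nat.add_le_add_left (Nat.mul_le_mul_right _ hkB) _
    -- two children of `o` are not below each other
    have hsep : ∀ z z', lp z = o → lp z' = o → In d L z z' → z' = z := by
      intro z z' hz hz' hin
      have e1 := ho z hz
      have e2 := ho z' hz'
      obtain ⟨i1, i2⟩ := hin
      rw [e1.1, e2.1] at i1 i2
      rw [e1.2] at i2
      have i3 : idx z * w' ≤ idx z' * w' := by omega
      have i4 : idx z' * w' < (idx z + 1) * w' := by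
        rw [Nat.add_mul, Nat.one_mul]
        omega
      have i5 : idx z' < idx z + 1 := Nat.lt_of_mul_lt_mul_right i4
      have hw' : 0 < w' := by
        have := F.Lpos z
        omega
      have i6 : idx z ≤ idx z' := Nat.le_of_mul_le_mul_right i3 hw'
      have i7 : idx z' = idx z := by omega
      apply F.inj
      rw [e1.1, e2.1, i7]
    by_cases hex : ∃ z, lp z = o ∧ idx z = k
    · obtain ⟨z, hzo, hzk⟩ := hex
      have e1 := ho z hzo
      have eR : d.R z = R0 + k * w' := by rw [e1.1, hzk]
      have eT : d.R z + L z = R0 + (k + 1) * w' := by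
        rw [eR, e1.2, Nat.add_mul, Nat.one_mul, Nat.add_assoc]
      rcases A.eq_empty_or_nonempty with hAe | ⟨c0, hc0⟩
      · subst hAe
        exact ⟨U0, fun c hc => absurd hc (notMem_empty c), fun c hc => absurd hc (notMem_empty c),
          fun c hc => absurd hc (notMem_empty c), fun _ _ c hc => absurd hc (notMem_empty c)⟩
      have hS : ∀ c ∈ A, ∃ β : Finset ℕ, β.card ≤ s ∧
          ∀ c', c' < d.q → c' ∉ β → ∃ W' : V → ℕ, (∀ v, W' v < d.q) ∧
            (∀ v, ¬ In d L z v → W' v = U c v) ∧ W' z = c' ∧ d.Gd (d.R z + 1) W' ∧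
            d.sf z (d.R z) W' := by
        intro c hc
        apply ih z hzo (U c) (h1 c hc)
        rw [eT]
        exact h2 c hc
      choose! β hβ hβ' using hS
      have hbad : (A.biUnion β).card ≤ d.b := by
        refine le_trans (card_biUnion_le_card_mul _ _ _ hβ) (le_trans ?_ hb)
        exact Nat.mul_le_mul_right _ hA
      -- the colour
      obtain ⟨c', hc'q, hc'β, hc'p⟩ : ∃ c', c' < d.q ∧ c' ∉ A.biUnion β ∧
          ∀ p, d.E z p → ∀ c ∈ A, d.sf p (d.R z) (update (U c) z c') := by
        by_cases hp : ∃ p, d.E z p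
        · obtain ⟨p, hp⟩ := hp
          obtain ⟨f1, f2⟩ := hfix z hzo p hp
          have hpz : p ∈ d.P z := ((F.hE z p).1 hp).1
          have g1 : d.sf p (d.R z + L z) (U c0) := h2 c0 hc0 |> fun h => by
            rw [eT]
            exact h p (by omega)
          have g2 : d.sf p (d.R z + 1) (U c0) := by
            refine (sf_skip d (by have := F.Lpos z; omega) ?_ _).1 g1
            intro z2 i1 i2 hE2
            have hp2 : p ∈ d.P z2 := ((F.hE z2 p).1 hE2).1
            have hin : In d L z z2 := ⟨by omega, i2⟩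
            rcases f2 z2 (Or.inr (Or.inr hp2)) with h | ⟨h, _⟩
            · have := hsep z z2 hzo h hin
              subst this
              omega
            · exact h z hzo hin
          rw [sf_succ_of d F.inj hp] at g2
          obtain ⟨c', hc', hc''⟩ : ∃ c' ∈ (range d.q).filter
              (fun c => d.sf p (d.R z) (update (U c0) z c)), c' ∉ A.biUnion β := by
            by_contra hno
            push Not at hno
            have := card_le_card (show _ ⊆ A.biUnion β from hno)
            omega
          obtain ⟨i1, i2⟩ := mem_filter.1 hc'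
          refine ⟨c', mem_range.1 i1, hc'', ?_⟩
          intro p' hp' c hc
          rw [F.Eu z p' p hp' hp]
          refine (sf_congr d F.inj hg _ ?_).1 i2
          intro u hu _
          by_cases huz : u = z
          · subst huz
            rw [update_self, update_self]
          · rw [update_of_ne huz, update_of_ne huz]
            rcases f2 u hu with h | ⟨h, h'⟩
            · exact h4 u h c0 hc0 c hc
            · rw [h3 c0 hc0 u h, h3 c hc u h]
              exact h' c0 hc0 c hc
        · obtain ⟨c', hc', hc''⟩ : ∃ c' ∈ range d.q, c' ∉ A.biUnion β := by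
            by_contra hno
            push Not at hno
            have := card_le_card (show _ ⊆ A.biUnion β from hno)
            rw [card_range] at this
            omega
          exact ⟨c', mem_range.1 hc', hc'', fun p hpp => absurd ⟨p, hpp⟩ hp⟩
      have hW : ∀ c ∈ A, ∃ W' : V → ℕ, (∀ v, W' v < d.q) ∧
            (∀ v, ¬ In d L z v → W' v = U c v) ∧ W' z = c' ∧ d.Gd (d.R z + 1) W' ∧
            d.sf z (d.R z) W' := by
        intro c hc
        apply hβ' c hc c' hc'q
        intro h
        exact hc'β (mem_biUnion.2 ⟨c, hc, h⟩)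
      choose! U' k1 k2 k3 k4 k5 using hW
      refine ⟨U', k1, ?_, ?_, ?_⟩
      · intro c hc
        rw [← eR]
        apply Gd_close d F.inj (k4 c hc) (k5 c hc)
        intro p hp
        refine (sf_congr d F.inj hg _ ?_).1 (hc'p p hp c hc)
        intro u hu _
        by_cases huz : u = z
        · subst huz
          rw [update_self, k3 c hc]
        · rw [update_of_ne huz, k2 c hc]
          intro hin
          rcases (hfix z hzo p hp).2 u hu with h | ⟨h, _⟩
          · exact huz (hsep z u hzo h hin)
          · exact h z hzo hin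
      · intro c hc u hu
        rw [k2 c hc u (hu z hzo)]
        exact h3 c hc u hu
      · intro z1 hz1 c hc c1 hc1
        by_cases h : z1 = z
        · subst h
          rw [k3 c hc, k3 c1 hc1]
        · have h' : ¬ In d L z z1 := fun hin => h (hsep z z1 hzo hz1 hin)
          rw [k2 c hc z1 h', k2 c1 hc1 z1 h']
          exact h4 z1 hz1 c hc c1 hc1
    · refine ⟨U, h1, ?_, h3, h4⟩
      intro c hc
      refine Gd_skip d (m := R0 + (k + 1) * w') ?_ ?_ (h2 c hc)
      · exact Nat.add_le_add_left (Nat.mul_le_mul_right _ (Nat.le_succ k)) _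
      · intro v hv
        by_contra hlt
        push Not at hlt
        have hk1' : 1 ≤ k := by omega
        have : R0 + w' ≤ d.R v := by
          refine le_trans (Nat.add_le_add_left ?_ _) hv
          exact Nat.le_mul_of_pos_left _ hk1'
        obtain ⟨z, hz, hin⟩ := hsub v this (by omega)
        apply hex
        refine ⟨z, hz, ?_⟩
        have e1 := ho z hz
        obtain ⟨i1, i2⟩ := hin
        rw [e1.1] at i1 i2
        rw [e1.2] at i2
        have i3 : idx z * w' < (k + 1) * w' := by omega
        have i4 : k * w' < (idx z + 1) * w' := by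
          rw [Nat.add_mul (idx z), Nat.one_mul]
          omega
        have i5 := Nat.lt_of_mul_lt_mul_right i3
        have i6 := Nat.lt_of_mul_lt_mul_right i4
        omega

/-- Children of `o` do not contain each other. -/
lemma Facts.sep (F : Facts d lp L w idx B w₀) {o : Option V} {R0 w' : ℕ}
    (ho : ∀ z, lp z = o → d.R z = R0 + idx z * w' ∧ L z = w') {z z' : V} (hz : lp z = o)
    (hz' : lp z' = o) (hin : In d L z z') : z' = z := by
  have e1 := ho z hz
  have e2 := ho z' hz'
  obtain ⟨i1, i2⟩ := hin
  rw [e1.1, e2.1] at i1 i2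
  rw [e1.2] at i2
  have i3 : idx z * w' ≤ idx z' * w' := by omega
  have i4 : idx z' * w' < (idx z + 1) * w' := by
    rw [Nat.add_mul, Nat.one_mul]
    omega
  have i5 : idx z' < idx z + 1 := Nat.lt_of_mul_lt_mul_right i4
  have hw' : 0 < w' := by
    have := F.Lpos z
    omega
  have i6 : idx z ≤ idx z' := Nat.le_of_mul_le_mul_right i3 hw'
  have i7 : idx z' = idx z := by omega
  apply F.inj
  rw [e1.1, e2.1, i7]

/-- A child lies below its parent. -/
lemma Facts.In_child (F : Facts d lp L w idx B w₀) {z x v : V} (hz : lp z = some x)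
    (hv : In d L z v) : In d L x v ∧ d.R x < d.R v := by
  have h1 := F.child z x hz
  have h2 := F.idx1 z
  have h3 := F.wpos x
  have h4 := F.Lw x
  obtain ⟨i1, i2⟩ := hv
  have h5 : 0 < idx z * w x := Nat.mul_pos (by omega) h3
  have h6 : (idx z + 1) * w x ≤ B * w x := Nat.mul_le_mul_right _ (by omega)
  rw [Nat.add_mul, Nat.one_mul] at h6
  refine ⟨⟨by omega, by omega⟩, by omega⟩

lemma SSx (F : Facts d lp L w idx B w₀)
    (hg : ∀ v c c', (∀ u, (u ∈ d.P v ∨ v ∈ d.P u) → c u = c' u) → d.g v c = d.g v c')
    {s : ℕ} (hgs : ∀ v c, (d.g v c).card ≤ s) (hb : (s + 1) * s ≤ d.b)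
    (hbq : (s + 1) * d.b < d.q) (n : ℕ) : ∀ x, L x = n → SS d L s x := by
  induction n using Nat.strong_induction_on with
  | _ n ihn =>
    intro x hx W hW hGd
    have hbq' : d.b < d.q := by
      refine lt_of_le_of_lt ?_ hbq
      exact Nat.le_mul_of_pos_left _ (Nat.succ_pos s)
    have hB : 2 ≤ B := by
      have := F.idx1 x
      omega
    have hwx := F.wpos x
    have hLx := F.Lw x
    have hEirr : ∀ v, ¬ d.E v v := fun v h => F.irr v ((F.hE v v).1 h).1
    set OK : ℕ → Prop := fun c => ∃ W' : V → ℕ, (∀ v, W' v < d.q) ∧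
      (∀ v, ¬ In d L x v → W' v = W v) ∧ W' x = c ∧ d.Gd (d.R x + 1) W' ∧ d.sf x (d.R x) W'
      with hOK
    refine ⟨(range d.q).filter (fun c => ¬ OK c), ?_, ?_⟩
    swap
    · intro c hc hcn
      by_contra hno
      exact hcn (mem_filter.2 ⟨mem_range.2 hc, hno⟩)
    by_contra hcard
    push Not at hcard
    obtain ⟨A, hAsub, hA⟩ := exists_subset_card_eq (show s + 1 ≤ _ from hcard)
    have hAq : ∀ c ∈ A, c < d.q := fun c hc => mem_range.1 (mem_filter.1 (hAsub hc)).1
    have hAno : ∀ c ∈ A, ¬ OK c := fun c hc => (mem_filter.1 (hAsub hc)).2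
    -- the family
    have hG0 : ∀ c ∈ A, d.Gd (d.R x + B * w x) (update W x c) := by
      intro c hc v hv
      rw [← hLx] at hv
      refine (sf_congr d F.inj hg _ ?_).1 (by
        rw [← hLx]
        exact hGd v hv)
      intro u hu hu'
      rw [update_of_ne]
      rintro rfl
      rcases hu with h | h | h
      · subst h
        have := F.Lpos u
        omega
      · -- `u` is a parent of `v`, and `v` is not below `u`
        have hEv : ¬ (lp v = some u) := by
          intro h'
          have := (F.In_child h' (F.In_self v)).1.2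
          omega
        have hEvu : d.E v u := (F.hE v u).2 ⟨h, hEv⟩
        cases hlv : lp v with
        | none =>
          rw [F.lpn v hlv] at h
          exact absurd h (notMem_empty _)
        | some y =>
          have h1 := F.Eout v u y hEvu hlv
          have h2 := (F.In_child hlv (F.In_self v)).1.2
          have h3 := F.Lpos u
          omega
      · by_cases hEv : lp u = some v
        · have := (F.In_child hEv (F.In_self u)).2
          have h3 := F.Lpos u
          omega
        · have hEvu : d.E u v := (F.hE u v).2 ⟨h, hEv⟩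
          exact hu' ⟨hEvu, by
            have := F.Lpos u
            rw [← hLx]
            omega⟩
    have hxin : ∀ z, lp z = some x → ¬ In d L z x := by
      intro z hz h
      have := (F.In_child hz h).2
      omega
    obtain ⟨U, h1, h2, h3, h4⟩ := run F hg hb hbq' (some x) (d.R x) (w x)
      (fun z hz => F.child z x hz)
      (fun v hv1 hv2 => F.sub x v (by omega) (by omega))
      (fun z hz => ihn (L z) (by
        rw [(F.child z x hz).2, ← hx, hLx]
        calc w x < 2 * w x := by omega
          _ ≤ B * w x := Nat.mul_le_mul_right _ hB) z rfl)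
      A (le_of_eq hA) (fun c => update W x c)
      (by
        intro c hc v
        by_cases hv : v = x
        · subst hv
          rw [update_self]
          exact hAq c hc
        · rw [update_of_ne hv]
          exact hW v)
      hG0
      (by
        intro z hz c _ c' _
        have : z ≠ x := by
          rintro rfl
          exact hxin z hz (F.In_self z)
        rw [update_of_ne this, update_of_ne this])
      (by
        intro z hz p hp
        refine ⟨?_, ?_⟩
        · rw [← hLx]
          exact F.Eout z p x hp hz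
        · intro u hu
          by_cases hin : In d L x u
          · exact Or.inl (F.far z p x u hp hz hu hin)
          · right
            refine ⟨fun z' hz' h => hin (F.In_child hz' h).1, ?_⟩
            intro c _ c' _
            have : u ≠ x := by
              rintro rfl
              exact hin (F.In_self u)
            rw [update_of_ne this, update_of_ne this])
      (B - 1) (by omega)
    have e1 : B - (B - 1) = 1 := by omega
    rw [e1, Nat.one_mul] at h2
    have h2' : ∀ c ∈ A, d.Gd (d.R x + 1) (U c) := by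
      intro c hc
      refine Gd_skip d (by omega) ?_ (h2 c hc)
      intro v hv
      by_contra hlt
      push Not at hlt
      obtain ⟨z, hz, i1, i2⟩ := F.sub x v (by omega) (by
        have : w x ≤ B * w x := Nat.le_mul_of_pos_left _ (by omega)
        omega)
      have h5 := F.child z x hz
      have h6 := F.idx1 z
      have h7 : w x ≤ idx z * w x := Nat.le_mul_of_pos_left _ (by omega)
      omega
    have hne : A.Nonempty := by
      rw [← card_pos, hA]
      omega
    obtain ⟨c0, hc0⟩ := hne
    obtain ⟨c, hc, hsf⟩ := sf_uniq d F.inj hg hgs hbq (F.irr x) (hEirr x) (d.R x) (U c0) A hA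
    apply hAno c hc
    have hout : ∀ c ∈ A, ∀ u, ¬ In d L x u → U c u = W u := by
      intro c hc u hu
      rw [h3 c hc u (fun z hz h => hu (F.In_child hz h).1)]
      rw [update_of_ne]
      rintro rfl
      exact hu (F.In_self u)
    refine ⟨U c, h1 c hc, hout c hc, ?_, h2' c hc, ?_⟩
    · rw [h3 c hc x hxin, update_self]
    · refine (sf_congr d F.inj hg _ ?_).1 hsf
      intro u hu hu'
      by_cases hux : u = x
      · subst hux
        rw [update_self, h3 c hc u hxin, update_self]
      · rw [update_of_ne hux]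
        rcases hu with h | h | h
        · exact absurd h hux
        · have := F.pin x u h
          rw [hout c0 hc0 u this, hout c hc u this]
        · by_cases hl : lp u = some x
          · exact h4 u hl c0 hc0 c hc
          · exfalso
            have hEux : d.E u x := (F.hE u x).2 ⟨h, hl⟩
            cases hlu : lp u with
            | none =>
              rw [F.lpn u hlu] at h
              exact absurd h (notMem_empty _)
            | some y =>
              have i1 := F.Eout u x y hEux hlu
              have i2 := (F.In_child hlu (F.In_self u)).1.2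
              exact hu' ⟨hEux, by omega⟩

/-- The core: a colouring with all guesses wrong. -/
theorem core (F : Facts d lp L w idx B w₀)
    (hg : ∀ v c c', (∀ u, (u ∈ d.P v ∨ v ∈ d.P u) → c u = c' u) → d.g v c = d.g v c')
    {s : ℕ} (hgs : ∀ v c, (d.g v c).card ≤ s) (hb : (s + 1) * s ≤ d.b)
    (hbq : (s + 1) * d.b < d.q) (hB : 2 ≤ B) :
    ∃ c : V → ℕ, (∀ v, c v < d.q) ∧ ∀ v, c v ∉ d.g v c := by
  have hbq' : d.b < d.q := by
    refine lt_of_le_of_lt ?_ hbq
    exact Nat.le_mul_of_pos_left _ (Nat.succ_pos s)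
  have hno : ∀ z, lp z = none → ∀ p, ¬ d.E z p := by
    intro z hz p hp
    have := ((F.hE z p).1 hp).1
    rw [F.lpn z hz] at this
    exact absurd this (notMem_empty _)
  obtain ⟨U, h1, h2, h3, h4⟩ := run F hg hb hbq' none 0 w₀
      (fun z hz => by
        rw [Nat.zero_add]
        exact F.root z hz)
      (fun v _ _ => F.top v)
      (fun z _ => SSx F hg hgs hb hbq (L z) z rfl)
      {0} (by rw [card_singleton]; omega) (fun _ _ => 0)
      (fun _ _ _ => by omega)
      (by
        intro c _ v hv
        obtain ⟨z, hz, i1, i2⟩ := F.top v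
        have h5 := F.root z hz
        have h6 := F.idx1 z
        have h7 : (idx z + 1) * w₀ ≤ B * w₀ := Nat.mul_le_mul_right _ (by omega)
        rw [Nat.add_mul, Nat.one_mul] at h7
        omega)
      (fun _ _ _ _ _ _ => rfl)
      (fun z hz p hp => absurd hp (hno z hz p))
      (B - 1) (by omega)
  have e1 : B - (B - 1) = 1 := by omega
  rw [e1, Nat.one_mul] at h2
  have h0 : (0 : ℕ) ∈ ({0} : Finset ℕ) := mem_singleton_self 0
  have hG : d.Gd 0 (U 0) := by
    refine Gd_skip d (Nat.zero_le _) ?_ (h2 0 h0)
    intro v _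
    obtain ⟨z, hz, i1, i2⟩ := F.top v
    have h5 := F.root z hz
    have h6 := F.idx1 z
    have h7 : w₀ ≤ idx z * w₀ := Nat.le_mul_of_pos_left _ (by omega)
    omega
  refine ⟨U 0, h1 0 h0, ?_⟩
  intro v
  exact (sf_zero d v (U 0)).1 (hG v (Nat.zero_le _))

end Pool.Agent.Lib.MP_994fee_co.Gr
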