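import Pool.Agent.Lib.MP_994fee_co.Gr.Main

/-!
# Hat guessing on graded graphs: the order
-/

set_option autoImplicit false

namespace Pool.Agent.Lib.MP_994fee_co.Gr

open Finset Function Classical

variable {V : Type}

/-- The equations of the order at `v`. -/
structure OrdAt (P : V → Finset V) (idx : V → ℕ) (B D : ℕ) (a k : V → ℕ) (lp : V → Option V)
    (v : V) : Prop where
  no : lp v = none → P v = ∅ ∧ a v = idx v ∧ k v = D + 1
  so : ∀ x, lp v = some x → x ∈ P v ∧ (∀ p ∈ P v, a x * B ^ k x ≤ a p * B ^ k p) ∧
    a v = B * a x + idx v ∧ k v = k x - 1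

lemma exists_ord (P : V → Finset V) (lev : V → ℕ) (hlev : ∀ z p, p ∈ P z → lev p < lev z)
    (idx : V → ℕ) (B D : ℕ) : ∀ n : ℕ, ∃ (a k : V → ℕ) (lp : V → Option V),
      ∀ v, lev v < n → OrdAt P idx B D a k lp v := by
  intro n
  induction n with
  | zero => exact ⟨0, 0, fun _ => none, fun v hv => absurd hv (Nat.not_lt_zero _)⟩
  | succ n ih =>
    obtain ⟨a, k, lp, h⟩ := ih
    have hex : ∀ v, ∃ (o : Option V) (a' k' : ℕ), (o = none → P v = ∅ ∧ a' = idx v ∧ k' = D + 1) ∧
        ∀ x, o = some x → x ∈ P v ∧ (∀ p ∈ P v, a x * B ^ k x ≤ a p * B ^ k p) ∧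
          a' = B * a x + idx v ∧ k' = k x - 1 := by
      intro v
      rcases (P v).eq_empty_or_nonempty with he | hne
      · exact ⟨none, idx v, D + 1, fun _ => ⟨he, rfl, rfl⟩, fun x hx => by simp at hx⟩
      · obtain ⟨x, hx, hmin⟩ := exists_min_image (P v) (fun p => a p * B ^ k p) hne
        refine ⟨some x, B * a x + idx v, k x - 1, fun hx => by simp at hx, ?_⟩
        intro x' hx'
        simp only [Option.some.injEq] at hx'
        subst hx'
        exact ⟨hx, hmin, rfl, rfl⟩
    choose o a' k' ho1 ho2 using hex
    refine ⟨fun v => if lev v < n then a v else a' v, fun v => if lev v < n then k v else k' v,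
      fun v => if lev v < n then lp v else o v, ?_⟩
    intro v hv
    have hP : ∀ p ∈ P v, lev p < n := by
      intro p hp
      have := hlev v p hp
      omega
    by_cases hvn : lev v < n
    · obtain ⟨h1, h2⟩ := h v hvn
      refine ⟨?_, ?_⟩
      · intro hl
        simp only [hvn, if_true] at hl ⊢
        exact h1 hl
      · intro x hl
        simp only [hvn, if_true] at hl ⊢
        obtain ⟨i1, i2, i3, i4⟩ := h2 x hl
        refine ⟨i1, ?_, ?_, ?_⟩
        · intro p hp
          simp only [hP x i1, hP p hp, if_true]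
          exact i2 p hp
        · simp only [hP x i1, if_true]
          exact i3
        · simp only [hP x i1, if_true]
          exact i4
    · refine ⟨?_, ?_⟩
      · intro hl
        simp only [hvn, if_false] at hl ⊢
        exact ho1 v hl
      · intro x hl
        simp only [hvn, if_false] at hl ⊢
        obtain ⟨i1, i2, i3, i4⟩ := ho2 v x hl
        refine ⟨i1, ?_, ?_, ?_⟩
        · intro p hp
          simp only [hP x i1, hP p hp, if_true]
          exact i2 p hp
        · simp only [hP x i1, if_true]
          exact i3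
        · simp only [hP x i1, if_true]
          exact i4

/-- The class: all parents of one vertex on one level, or all children of one vertex on one
level. -/
def OneLevel (P : V → Finset V) (lev : V → ℕ) : Prop :=
  (∀ z z' p, p ∈ P z → p ∈ P z' → lev z = lev z') ∨ (∀ z p p', p ∈ P z → p' ∈ P z → lev p = lev p')

/-- Partners of one vertex are incomparable. -/
def Anti (P : V → Finset V) : Prop :=
  ∀ p x y i j, p ∈ P i → x ∈ P i → p ∈ P j → y ∈ P j → ¬ Relation.TransGen (fun a b => a ∈ P b) x y

lemma transGen_lev {P : V → Finset V} {lev : V → ℕ} (hlev : ∀ z p, p ∈ P z → lev p < lev z)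
    {x y : V} (h : Relation.TransGen (fun a b => a ∈ P b) x y) : lev x < lev y := by
  induction h with
  | single h => exact hlev _ _ h
  | tail _ h ih => exact lt_trans ih (hlev _ _ h)

lemma OneLevel.anti {P : V → Finset V} {lev : V → ℕ} (hlev : ∀ z p, p ∈ P z → lev p < lev z)
    (hC : OneLevel P lev) : Anti P := by
  intro p x y i j h1 h2 h3 h4 h
  rcases hC with hC | hC
  · obtain ⟨c, hc, hcy⟩ : ∃ c, x ∈ P c ∧ (c = y ∨ Relation.TransGen (fun a b => a ∈ P b) c y) := by
      rcases Relation.TransGen.head'_iff.1 h with ⟨c, hc, hcy⟩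
      refine ⟨c, hc, ?_⟩
      rcases Relation.reflTransGen_iff_eq_or_transGen.1 hcy with h5 | h5
      · exact Or.inl h5.symm
      · exact Or.inr h5
    have e1 := hC c i x hc h2
    have e2 := hC i j p h1 h3
    have e3 := hlev j y h4
    rcases hcy with h5 | h5
    · rw [h5] at e1
      omega
    · have := transGen_lev hlev h5
      omega
  · have e1 := hC i p x h1 h2
    have e2 := hC j p y h3 h4
    have := transGen_lev hlev h
    omega

section

variable {P : V → Finset V} {lev : V → ℕ} {idx : V → ℕ} {B D : ℕ} {a k : V → ℕ}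
  {lp : V → Option V}

/-- If two multiples of `m` satisfy `x < y`, then `x + m ≤ y`. -/
lemma mul_lt_step {x y m : ℕ} (h : x * m < y * m) : x * m + m ≤ y * m := by
  have h1 : x < y := Nat.lt_of_mul_lt_mul_right h
  calc x * m + m = (x + 1) * m := by rw [Nat.add_mul, Nat.one_mul]
    _ ≤ y * m := Nat.mul_le_mul_right _ h1

/-- The same with different exponents. -/
lemma pow_step {x y i j : ℕ} (hij : i ≤ j) {B : ℕ} (h : x * B ^ i < y * B ^ j) :
    x * B ^ i + B ^ i ≤ y * B ^ j := by
  have : B ^ j = B ^ (j - i) * B ^ i := by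
    rw [← pow_add]
    congr 1
    omega
  rw [this, ← Nat.mul_assoc] at h ⊢
  exact mul_lt_step h

lemma pow_step' {x y i j : ℕ} (hij : i ≤ j) {B : ℕ} (h : y * B ^ j < x * B ^ i) :
    y * B ^ j + B ^ i ≤ x * B ^ i := by
  have : B ^ j = B ^ (j - i) * B ^ i := by
    rw [← pow_add]
    congr 1
    omega
  rw [this, ← Nat.mul_assoc] at h ⊢
  exact mul_lt_step h

/-- All facts about the order. -/
lemma facts (hP2 : ∀ v, (P v).card ≤ 2) (hlev : ∀ z p, p ∈ P z → lev p < lev z)
    (hC : Anti P) (hidx : ∀ z, 1 ≤ idx z ∧ idx z < B) (hidx' : Injective idx)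
    (hB : 2 ≤ B) (hD : ∀ v, lev v ≤ D) (h : ∀ v, OrdAt P idx B D a k lp v) (q b : ℕ)
    (g : V → (V → ℕ) → Finset ℕ) :
    Facts (⟨P, fun v => a v * B ^ k v, fun z p => p ∈ P z ∧ lp z ≠ some p, q, b, g⟩ : Dat V)
      lp (fun v => B ^ k v) (fun v => B ^ (k v - 1)) idx B (B ^ (D + 1)) := by
  have hBpos : ∀ i, 0 < B ^ i := fun i => pow_pos (by omega) i
  -- exponents
  have hk : ∀ n v, lev v = n → D + 1 ≤ k v + lev v ∧ k v ≤ D + 1 := by
    intro n
    induction n using Nat.strong_induction_on with
    | _ n ih =>
      intro v hv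
      cases hl : lp v with
      | none =>
        have := ((h v).no hl).2.2
        omega
      | some x =>
        obtain ⟨i1, i2, i3, i4⟩ := (h v).so x hl
        have h1 := hlev v x i1
        have h2 := ih (lev x) (by omega) x rfl
        omega
  have hk1 : ∀ v, 1 ≤ k v := by
    intro v
    have := hk _ v rfl
    have := hD v
    omega
  have hksome : ∀ v x, lp v = some x → k x = k v + 1 := by
    intro v x hl
    have h1 := ((h v).so x hl).2.2.2
    have h2 := hk1 x
    omega
  have hamod : ∀ v, a v % B = idx v := by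
    intro v
    have hi := hidx v
    cases hl : lp v with
    | none =>
      rw [((h v).no hl).2.1, Nat.mod_eq_of_lt hi.2]
    | some x =>
      rw [((h v).so x hl).2.2.1, Nat.mul_add_mod, Nat.mod_eq_of_lt hi.2]
  -- injectivity
  have hinj : ∀ v v', a v * B ^ k v = a v' * B ^ k v' → v = v' := by
    have key : ∀ v v', a v * B ^ k v = a v' * B ^ k v' → ¬ k v < k v' := by
      intro v v' he hlt
      have h1 : B ^ k v' = B ^ (k v' - k v - 1) * B * B ^ k v := by
        rw [← pow_succ, ← pow_add]
        congr 1
        omega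
      rw [h1, ← Nat.mul_assoc] at he
      have h2 := Nat.eq_of_mul_eq_mul_right (hBpos _) he
      have h3 := hamod v
      rw [h2, ← Nat.mul_assoc, Nat.mul_mod_left] at h3
      have := hidx v
      omega
    intro v v' he
    have h1 := key v v' he
    have h2 := key v' v he.symm
    have h3 : k v = k v' := by omega
    rw [h3] at he
    have h4 := Nat.eq_of_mul_eq_mul_right (hBpos _) he
    apply hidx'
    rw [← hamod v, ← hamod v', h4]
  set d : Dat V := ⟨P, fun v => a v * B ^ k v, fun z p => p ∈ P z ∧ lp z ≠ some p, q, b, g⟩ with hd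
  have hIn : ∀ z v, In d (fun v => B ^ k v) z v ↔
      a z * B ^ k z ≤ a v * B ^ k v ∧ a v * B ^ k v < a z * B ^ k z + B ^ k z := fun z v => Iff.rfl
  -- containment with a large exponent is equality
  have hbig : ∀ z v, In d (fun v => B ^ k v) z v → k z ≤ k v → v = z := by
    intro z v hin hkk
    obtain ⟨i1, i2⟩ := (hIn z v).1 hin
    rcases Nat.eq_or_lt_of_le i1 with h1 | h1
    · exact (hinj _ _ h1).symm
    · have := pow_step hkk h1
      omega
  have htrans : ∀ z y v, In d (fun v => B ^ k v) z y → In d (fun v => B ^ k v) y v →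
      In d (fun v => B ^ k v) z v := by
    intro z y v h1 h2
    by_cases hkk : k z ≤ k y
    · rw [hbig z y h1 hkk] at h2
      exact h2
    · obtain ⟨i1, i2⟩ := (hIn _ _).1 h1
      obtain ⟨j1, j2⟩ := (hIn _ _).1 h2
      refine (hIn _ _).2 ⟨by omega, ?_⟩
      have e : a z * B ^ k z + B ^ k z = (a z + 1) * B ^ k z := by
        rw [Nat.add_mul, Nat.one_mul]
      rw [e] at i2 ⊢
      have := pow_step (by omega) i2
      omega
  have hchild : ∀ z x, lp z = some x → a z * B ^ k z = a x * B ^ k x + idx z * B ^ (k x - 1) ∧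
      B ^ k z = B ^ (k x - 1) := by
    intro z x hl
    have h1 := hksome z x hl
    have h2 := ((h z).so x hl).2.2.1
    have h3 : k x - 1 = k z := by omega
    rw [h3, h2, h1, pow_succ]
    refine ⟨?_, rfl⟩
    ring
  have hLw : ∀ x, B ^ k x = B * B ^ (k x - 1) := by
    intro x
    have := hk1 x
    rw [← pow_succ']
    congr 1
    omega
  have hInc : ∀ z x, lp z = some x → In d (fun v => B ^ k v) x z := by
    intro z x hl
    obtain ⟨h1, h2⟩ := hchild z x hl
    have h3 := hidx z
    refine (hIn _ _).2 ⟨by omega, ?_⟩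
    rw [h1]
    have : idx z * B ^ (k x - 1) < B * B ^ (k x - 1) := Nat.mul_lt_mul_of_pos_right h3.2 (hBpos _)
    rw [← hLw x] at this
    omega
  have hself : ∀ z, In d (fun v => B ^ k v) z z := by
    intro z
    refine (hIn _ _).2 ⟨le_refl _, ?_⟩
    have := hBpos (k z)
    omega
  -- climb
  have hclimb : ∀ z v, In d (fun v => B ^ k v) z v → v ≠ z →
      ∃ x, lp v = some x ∧ In d (fun v => B ^ k v) z x := by
    intro z v hin hne
    have hkk : k v < k z := by
      by_contra hcon
      exact hne (hbig z v hin (by omega))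
    cases hl : lp v with
    | none =>
      have h1 := ((h v).no hl).2.2
      have h2 := (hk _ z rfl).2
      omega
    | some x =>
      refine ⟨x, rfl, ?_⟩
      have h1 := hksome v x hl
      obtain ⟨i1, i2⟩ := (hIn _ _).1 hin
      obtain ⟨j1, j2⟩ := (hIn _ _).1 (hInc v x hl)
      refine (hIn _ _).2 ⟨?_, by omega⟩
      by_contra hcon
      push Not at hcon
      have := pow_step (show k x ≤ k z by omega) hcon
      omega
  -- descendants
  have hInT : ∀ n z v, lev v = n → In d (fun v => B ^ k v) z v →
      v = z ∨ Relation.TransGen (fun a b => a ∈ P b) z v := by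
    intro n
    induction n using Nat.strong_induction_on with
    | _ n ih =>
      intro z v hn hin
      by_cases hvz : v = z
      · exact Or.inl hvz
      · right
        obtain ⟨x, hl, hin'⟩ := hclimb z v hin hvz
        have hx := ((h v).so x hl).1
        have h1 := hlev v x hx
        rcases ih (lev x) (by omega) z x rfl hin' with h2 | h2
        · rw [← h2]
          exact Relation.TransGen.single hx
        · exact Relation.TransGen.tail h2 hx
  have hsub : ∀ n x v, lev v = n → In d (fun v => B ^ k v) x v → v ≠ x →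
      ∃ z, lp z = some x ∧ In d (fun v => B ^ k v) z v := by
    intro n
    induction n using Nat.strong_induction_on with
    | _ n ih =>
      intro x v hn hin hne
      obtain ⟨y, hl, hin'⟩ := hclimb x v hin hne
      by_cases hyx : y = x
      · subst hyx
        exact ⟨v, hl, hself v⟩
      · have h1 := hlev v y ((h v).so y hl).1
        obtain ⟨z, hz, hz'⟩ := ih (lev y) (by omega) x y rfl hin' hyx
        exact ⟨z, hz, htrans z y v hz' (hInc v y hl)⟩
  have htop : ∀ n v, lev v = n → ∃ z, lp z = none ∧ In d (fun v => B ^ k v) z v := by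
    intro n
    induction n using Nat.strong_induction_on with
    | _ n ih =>
      intro v hn
      cases hl : lp v with
      | none => exact ⟨v, hl, hself v⟩
      | some x =>
        have h1 := hlev v x ((h v).so x hl).1
        obtain ⟨z, hz, hz'⟩ := ih (lev x) (by omega) x rfl
        exact ⟨z, hz, htrans z x v hz' (hInc v x hl)⟩
  -- the early parent is outside
  have hEout : ∀ z p y, (p ∈ P z ∧ lp z ≠ some p) → lp z = some y →
      ¬ In d (fun v => B ^ k v) y p := by
    intro z p y hE hl hin
    have hpy : p ≠ y := by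
      rintro rfl
      exact hE.2 hl
    have hy := ((h z).so y hl).1
    rcases hInT _ y p rfl hin with h2 | h2
    · exact hpy h2
    · exact hC y y p z z hy hy hy hE.1 h2
  refine ⟨hinj, fun x => hBpos _, hBpos _, hLw, hchild, ?_, hidx, ?_, fun v => htop _ v rfl,
    fun z x hl => ((h z).so x hl).1, fun z hl => ((h z).no hl).1, ?_, fun z p => Iff.rfl, ?_, ?_, ?_,
    ?_⟩
  · intro z hl
    obtain ⟨h1, h2, h3⟩ := (h z).no hl
    show a z * B ^ k z = idx z * B ^ (D + 1) ∧ B ^ k z = B ^ (D + 1)
    rw [h2, h3]
    exact ⟨rfl, rfl⟩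
  · intro x v h1 h2
    refine hsub _ x v rfl ⟨le_of_lt h1, h2⟩ ?_
    rintro rfl
    exact lt_irrefl _ h1
  · intro z hz
    exact lt_irrefl _ (hlev z z hz)
  · intro z p p' hp hp'
    by_contra hne
    cases hl : lp z with
    | none =>
      have := ((h z).no hl).1
      have hp1 : p ∈ P z := hp.1
      rw [this] at hp1
      exact absurd hp1 (notMem_empty _)
    | some x =>
      have hx := ((h z).so x hl).1
      have h1 : x ≠ p := by
        rintro rfl
        exact hp.2 hl
      have h2 : x ≠ p' := by
        rintro rfl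
        exact hp'.2 hl
      have h3 : ({x, p, p'} : Finset V) ⊆ P z := by
        intro y hy
        simp only [mem_insert, mem_singleton] at hy
        rcases hy with rfl | rfl | rfl
        · exact hx
        · exact hp.1
        · exact hp'.1
      have h4 := card_le_card h3
      have h5 : ({x, p, p'} : Finset V).card = 3 := by
        rw [card_insert_of_notMem, card_insert_of_notMem, card_singleton]
        · simp only [mem_singleton]
          exact hne
        · simp only [mem_insert, mem_singleton, not_or]
          exact ⟨h1, h2⟩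
      have := hP2 z
      omega
  · intro z p y hE hl
    have h1 := hEout z p y hE hl
    have h2 := ((h z).so y hl).2.1 p hE.1
    rw [hIn] at h1
    push Not at h1
    exact h1 h2
  · intro v p hp hin
    have h1 := hlev v p hp
    rcases hInT _ v p rfl hin with h2 | h2
    · rw [h2] at h1
      omega
    · have := transGen_lev hlev h2
      omega
  · intro z p x u hE hl hu hin
    have hpx := hEout z p x hE hl
    have hE1 : p ∈ P z := hE.1
    have hx := ((h z).so x hl).1
    rcases hu with hu | hu | hu
    · rw [hu] at hin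
      exact absurd hin hpx
    · -- `u` is a parent of `p`
      exfalso
      apply hC p x p z z hE1 hx hE1 hE1
      rcases hInT _ x u rfl hin with h4 | h4
      · rw [← h4]
        exact Relation.TransGen.single hu
      · exact Relation.TransGen.tail h4 hu
    · -- `u` is a child of `p`
      have hux : u ≠ x := by
        rintro rfl
        exact hC p p u z z hE1 hE1 hE1 hx (Relation.TransGen.single hu)
      obtain ⟨y, hly, hin'⟩ := hclimb x u hin hux
      rcases hInT _ x y rfl hin' with h4 | h4
      · rw [hly, h4]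
      · exact absurd h4 (hC p x y z u hE1 hx hu ((h u).so y hly).1)

end

/-- THEOREM G. -/
theorem anti_loses [Fintype V] (P : V → Finset V) (lev : V → ℕ) (hP2 : ∀ v, (P v).card ≤ 2)
    (hlev : ∀ z p, p ∈ P z → lev p < lev z) (hC : Anti P) (s q : ℕ)
    (hq : s * (s + 1) ^ 2 < q) (g : V → (V → ℕ) → Finset ℕ)
    (hg : ∀ v c c', (∀ u, (u ∈ P v ∨ v ∈ P u) → c u = c' u) → g v c = g v c')
    (hgs : ∀ v c, (g v c).card ≤ s) :
    ∃ c : V → ℕ, (∀ v, c v < q) ∧ ∀ v, c v ∉ g v c := by
  set e := Fintype.equivFin V with he
  set B := Fintype.card V + 2 with hB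
  set idx : V → ℕ := fun v => (e v : ℕ) + 1 with hidx
  have h1 : ∀ z, 1 ≤ idx z ∧ idx z < B := by
    intro z
    have := (e z).2
    constructor
    · simp only [hidx]
      omega
    · simp only [hidx, hB]
      omega
  have h2 : Injective idx := by
    intro x y hxy
    simp only [hidx] at hxy
    apply e.injective
    apply Fin.ext
    omega
  obtain ⟨D, hD⟩ : ∃ D, ∀ v, lev v ≤ D :=
    ⟨univ.sup lev, fun v => le_sup (f := lev) (mem_univ v)⟩
  obtain ⟨a, k, lp, h⟩ := exists_ord P lev hlev idx B D (D + 1)
  have h' : ∀ v, OrdAt P idx B D a k lp v := fun v => h v (by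
    have := hD v
    omega)
  have F := facts hP2 hlev hC h1 h2 (by omega) hD h' q ((s + 1) * s) g
  exact core F hg hgs (le_refl _) (by
    show (s + 1) * ((s + 1) * s) < q
    calc (s + 1) * ((s + 1) * s) = s * (s + 1) ^ 2 := by ring
      _ < q := hq) (by omega)

end Pool.Agent.Lib.MP_994fee_co.Gr
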