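import Mathlib

/-!
# Hat guessing on graded graphs: safety
-/

set_option autoImplicit false

namespace Pool.Agent.Lib.MP_994fee_co.Gr

open Finset Function Classical

/-- The data: parents `P`, closing times `R` (in decreasing order), the relation `E z p` (`p` is the
early parent of `z`), the palette size `q`, the threshold `b`, the guesses `g`. -/
structure Dat (V : Type) where
  P : V → Finset V
  R : V → ℕ
  E : V → V → Prop
  q : ℕ
  b : ℕ
  g : V → (V → ℕ) → Finset ℕ

variable {V : Type}

/-- `v` is safe in the world `W` when the closings at times `< n` are still to come. -/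
noncomputable def Dat.sf (d : Dat V) (v : V) : ℕ → (V → ℕ) → Prop
  | 0, W => W v ∉ d.g v W
  | n + 1, W => (∀ z, d.R z = n → d.E z v →
      d.b + 1 ≤ ((range d.q).filter (fun c => d.sf v n (update W z c))).card) ∧
      ((∀ z, d.R z = n → ¬ d.E z v) → d.sf v n W)

/-- Good worlds. -/
def Dat.Gd (d : Dat V) (n : ℕ) (W : V → ℕ) : Prop := ∀ v, n ≤ d.R v → d.sf v n W

variable (d : Dat V)

lemma sf_zero (v : V) (W : V → ℕ) : d.sf v 0 W ↔ W v ∉ d.g v W := Iff.rfl

lemma sf_succ_of (hR : Injective d.R) {v z : V} (hE : d.E z v) (W : V → ℕ) :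
    d.sf v (d.R z + 1) W ↔
      d.b + 1 ≤ ((range d.q).filter (fun c => d.sf v (d.R z) (update W z c))).card := by
  constructor
  · intro h
    exact h.1 z rfl hE
  · intro h
    refine ⟨?_, ?_⟩
    · intro z' hz' _
      have := hR hz'
      subst this
      exact h
    · intro h'
      exact absurd hE (h' z rfl)

lemma sf_succ_not {v : V} {n : ℕ} (h : ∀ z, d.R z = n → ¬ d.E z v) (W : V → ℕ) :
    d.sf v (n + 1) W ↔ d.sf v n W := by
  constructor
  · intro h'
    exact h'.2 h
  · intro h'
    exact ⟨fun z hz hE => absurd hE (h z hz), fun _ => h'⟩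

lemma sf_skip {v : V} {n m : ℕ} (hnm : n ≤ m) (h : ∀ z, n ≤ d.R z → d.R z < m → ¬ d.E z v)
    (W : V → ℕ) : d.sf v m W ↔ d.sf v n W := by
  induction m, hnm using Nat.le_induction with
  | base => exact Iff.rfl
  | succ m hm ih =>
    rw [sf_succ_not d (fun z hz => h z (by omega) (by omega)),
      ih (fun z h1 h2 => h z h1 (by omega))]

lemma sf_congr (hR : Injective d.R)
    (hg : ∀ v c c', (∀ u, (u ∈ d.P v ∨ v ∈ d.P u) → c u = c' u) → d.g v c = d.g v c')
    {v : V} (n : ℕ) : ∀ {W W' : V → ℕ},
      (∀ u, (u = v ∨ u ∈ d.P v ∨ v ∈ d.P u) → ¬ (d.E u v ∧ d.R u < n) → W u = W' u) →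
      (d.sf v n W ↔ d.sf v n W') := by
  induction n with
  | zero =>
    intro W W' h
    rw [sf_zero, sf_zero]
    have h1 : W v = W' v := h v (Or.inl rfl) (fun h => absurd h.2 (Nat.not_lt_zero _))
    have h2 : d.g v W = d.g v W' := hg v W W' (fun u hu =>
      h u (Or.inr hu) (fun h => absurd h.2 (Nat.not_lt_zero _)))
    rw [h1, h2]
  | succ n ih =>
    intro W W' h
    by_cases hz : ∃ z, d.R z = n ∧ d.E z v
    · obtain ⟨z, rfl, hE⟩ := hz
      rw [sf_succ_of d hR hE, sf_succ_of d hR hE]
      have : ∀ c, (d.sf v (d.R z) (update W z c) ↔ d.sf v (d.R z) (update W' z c)) := by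
        intro c
        apply ih
        intro u hu hu'
        by_cases huz : u = z
        · subst huz
          rw [update_self, update_self]
        · rw [update_of_ne huz, update_of_ne huz]
          apply h u hu
          rintro ⟨h1, h2⟩
          rcases Nat.lt_succ_iff_lt_or_eq.1 h2 with h3 | h3
          · exact hu' ⟨h1, h3⟩
          · exact huz (hR h3)
      simp only [this]
    · push Not at hz
      rw [sf_succ_not d hz, sf_succ_not d hz]
      apply ih
      intro u hu hu'
      apply h u hu
      rintro ⟨h1, h2⟩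
      rcases Nat.lt_succ_iff_lt_or_eq.1 h2 with h3 | h3
      · exact hu' ⟨h1, h3⟩
      · exact hz u h3 h1

/-- Among `s + 1` colours one is safe. -/
lemma sf_uniq (hR : Injective d.R)
    (hg : ∀ v c c', (∀ u, (u ∈ d.P v ∨ v ∈ d.P u) → c u = c' u) → d.g v c = d.g v c')
    {s : ℕ} (hgs : ∀ v c, (d.g v c).card ≤ s) (hb : (s + 1) * d.b < d.q)
    {v : V} (hv : v ∉ d.P v) (hE : ¬ d.E v v) (n : ℕ) : ∀ (W : V → ℕ) (A : Finset ℕ),
      A.card = s + 1 → ∃ c ∈ A, d.sf v n (update W v c) := by
  induction n with
  | zero =>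
    intro W A hA
    have h1 : ∀ c, d.g v (update W v c) = d.g v W := by
      intro c
      apply hg
      intro u hu
      rw [update_of_ne]
      rintro rfl
      rcases hu with hu | hu <;> exact hv hu
    by_contra hcon
    push Not at hcon
    have : A ⊆ d.g v W := by
      intro c hc
      have h2 := hcon c hc
      rw [sf_zero, h1, update_self] at h2
      exact not_not.1 h2
    have := card_le_card this
    have := hgs v W
    omega
  | succ n ih =>
    intro W A hA
    by_cases hz : ∃ z, d.R z = n ∧ d.E z v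
    · obtain ⟨z, rfl, hEz⟩ := hz
      have hzv : z ≠ v := by
        rintro rfl
        exact hE hEz
      by_contra hcon
      push Not at hcon
      have hsm : ∀ c ∈ A, ((range d.q).filter
          (fun c' => d.sf v (d.R z) (update (update W v c) z c'))).card ≤ d.b := by
        intro c hc
        have := hcon c hc
        rw [sf_succ_of d hR hEz] at this
        omega
      have hun : (A.biUnion (fun c => (range d.q).filter
          (fun c' => d.sf v (d.R z) (update (update W v c) z c')))).card ≤ (s + 1) * d.b := by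
        refine le_trans (card_biUnion_le_card_mul _ _ _ hsm) ?_
        rw [hA]
      obtain ⟨c', hc', hc''⟩ : ∃ c' ∈ range d.q, c' ∉ A.biUnion (fun c => (range d.q).filter
          (fun c' => d.sf v (d.R z) (update (update W v c) z c'))) := by
        by_contra hno
        push Not at hno
        have := card_le_card (show range d.q ⊆ _ from hno)
        rw [card_range] at this
        omega
      obtain ⟨c, hc, hsf⟩ := ih (update W z c') A hA
      apply hc''
      rw [mem_biUnion]
      refine ⟨c, hc, mem_filter.2 ⟨hc', ?_⟩⟩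
      rw [update_comm hzv.symm]
      exact hsf
    · push Not at hz
      obtain ⟨c, hc, hsf⟩ := ih W A hA
      exact ⟨c, hc, (sf_succ_not d hz _).2 hsf⟩

lemma Gd_skip {n m : ℕ} (hnm : n ≤ m) {W : V → ℕ} (h : ∀ v, n ≤ d.R v → m ≤ d.R v)
    (hW : d.Gd m W) : d.Gd n W := by
  intro v hv
  refine (sf_skip d hnm ?_ W).1 (hW v (h v hv))
  intro z h1 h2
  exact absurd (h z h1) (by omega)

lemma Gd_close (hR : Injective d.R) {z : V} {W : V → ℕ} (hW : d.Gd (d.R z + 1) W)
    (hz : d.sf z (d.R z) W) (hp : ∀ p, d.E z p → d.sf p (d.R z) W) : d.Gd (d.R z) W := by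
  intro v hv
  rcases Nat.eq_or_lt_of_le hv with h | h
  · rw [← hR h]
    exact hz
  · by_cases hE : d.E z v
    · exact hp v hE
    · refine (sf_succ_not d ?_ W).1 (hW v h)
      intro z' hz'
      rw [hR hz']
      exact hE

end Pool.Agent.Lib.MP_994fee_co.Gr
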